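import Mathlib

/-!
# Thue chromatic number of lexicographic products (MP_35dbbb_co)

The lexicographic product `C₇[K₂]` has a nonrepetitive colouring with 7 colours, while
`π(K₂) + (π(C₇) - 1) * 2 = 2 + 3 * 2 = 8`.
-/

namespace Pool.Agent.Results.MP_35dbbb_co.HeptagonProduct

/-- `c` is a nonrepetitive colouring of `G`: there is no path with an even number of vertices
(written as the concatenation of its nonempty first half `l₁` and its second half `l₂`) whose two
halves carry the same sequence of colours. -/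
def Nonrepetitive {V α : Type*} (G : SimpleGraph V) (c : V → α) : Prop :=
  ∀ l₁ l₂ : List V, l₁ ≠ [] → (l₁ ++ l₂).Nodup → (l₁ ++ l₂).IsChain G.Adj →
    l₁.map c ≠ l₂.map c

/-- `G` has a nonrepetitive colouring with (at most) `k` colours. -/
def ThueColorable {V : Type*} (G : SimpleGraph V) (k : ℕ) : Prop :=
  ∃ c : V → Fin k, Nonrepetitive G c

/-- The Thue chromatic number `π(G)`. -/
noncomputable def thue {V : Type*} (G : SimpleGraph V) : ℕ :=
  sInf {k : ℕ | ThueColorable G k}

/-- The lexicographic product `G[H]`. -/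
def lex {V W : Type*} (G : SimpleGraph V) (H : SimpleGraph W) : SimpleGraph (V × W) where
  Adj a b := G.Adj a.1 b.1 ∨ (a.1 = b.1 ∧ H.Adj a.2 b.2)
  symm := ⟨fun _ _ h => h.elim (fun h => Or.inl h.symm) (fun h => Or.inr ⟨h.1.symm, h.2.symm⟩)⟩
  loopless := ⟨fun _ h => h.elim (fun h => h.ne rfl) (fun h => h.2.ne rfl)⟩

/-- The cycle on seven vertices. -/
def C7 : SimpleGraph (Fin 7) where
  Adj a b := a + 1 = b ∨ b + 1 = a
  symm := ⟨fun _ _ h => h.symm⟩
  loopless := ⟨by decide⟩

instance : DecidableRel C7.Adj := fun a b => inferInstanceAs (Decidable (a + 1 = b ∨ b + 1 = a))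

/-- The complete graph on two vertices. -/
abbrev K2 : SimpleGraph (Fin 2) := ⊤

instance : DecidableRel (lex C7 K2).Adj := fun a b =>
  inferInstanceAs (Decidable (C7.Adj a.1 b.1 ∨ (a.1 = b.1 ∧ K2.Adj a.2 b.2)))

theorem mono {V : Type*} {G : SimpleGraph V} {k l : ℕ} (hkl : k ≤ l) (h : ThueColorable G k) :
    ThueColorable G l := by
  obtain ⟨c, hc⟩ := h
  refine ⟨fun v => Fin.castLE hkl (c v), fun l₁ l₂ h0 h1 h2 he => ?_⟩
  refine hc l₁ l₂ h0 h1 h2 ?_
  have e : ∀ l' : List V, l'.map (fun v => Fin.castLE hkl (c v)) =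
      (l'.map c).map (Fin.castLE hkl) := fun l' => by rw [List.map_map]; rfl
  rw [e, e] at he
  exact (List.map_injective_iff.2 (Fin.castLE_injective hkl)) he

theorem nonempty {n : ℕ} (G : SimpleGraph (Fin n)) : {k : ℕ | ThueColorable G k}.Nonempty := by
  refine ⟨n, id, fun l₁ l₂ h0 h1 _ he => ?_⟩
  rw [List.map_id, List.map_id] at he
  subst he
  obtain ⟨x, hx⟩ := List.exists_mem_of_ne_nil l₁ h0
  exact (List.nodup_append.1 h1).2.2 x hx x hx rfl

theorem thue_ge {n : ℕ} (G : SimpleGraph (Fin n)) (k : ℕ) (h : ¬ ThueColorable G k) :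
    k + 1 ≤ thue G := by
  by_contra hlt
  exact h (mono (by unfold thue at hlt; omega) (Nat.sInf_mem (nonempty G)))

/-! ### the upper bound for the product -/

def colV : Fin 7 → Fin 2 → Fin 7 :=
  ![![5, 3], ![1, 2], ![4, 0], ![3, 5], ![6, 4], ![0, 1], ![2, 6]]

def col (v : Fin 7 × Fin 2) : Fin 7 := colV v.1 v.2

def A0 : List ((Fin 7 × Fin 2) × (Fin 7 × Fin 2)) :=
  [((0,0),(3,1)), ((0,1),(3,0)), ((6,1),(4,0))]
def A1 : List ((Fin 7 × Fin 2) × (Fin 7 × Fin 2)) :=
  [((1,0),(5,1)), ((1,1),(6,0)), ((2,0),(4,1)), ((2,1),(5,0))]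
def A2 : List ((Fin 7 × Fin 2) × (Fin 7 × Fin 2)) :=
  [((3,0),(0,1)), ((3,1),(0,0)), ((4,0),(6,1))]

/-- component of a pair of equally coloured vertices -/
def comp (x y : Fin 7 × Fin 2) : ℕ :=
  if (x, y) ∈ A0 then 0 else if (x, y) ∈ A1 then 1 else if (x, y) ∈ A2 then 2 else 3

theorem comp_step : ∀ x y, x ≠ y → col x = col y → ∀ x', (lex C7 K2).Adj x x' →
    ∀ y', (lex C7 K2).Adj y y' → x' ≠ y' → col x' = col y' → comp x' y' = comp x y := by
  decide +kernel

theorem comp_end : ∀ x y, x ≠ y → col x = col y → ∀ x' y', x' ≠ y' → col x' = col y' →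
    comp x' y' = comp x y → ¬ (lex C7 K2).Adj x' y := by
  decide +kernel

theorem comp_last : ∀ (xs ys : List (Fin 7 × Fin 2)) (x y : Fin 7 × Fin 2),
    (x :: xs).IsChain (lex C7 K2).Adj → (y :: ys).IsChain (lex C7 K2).Adj →
    (x :: xs).map col = (y :: ys).map col → (∀ a ∈ x :: xs, ∀ b ∈ y :: ys, a ≠ b) →
    ∃ x' y', (x :: xs).getLast? = some x' ∧ x' ≠ y' ∧ col x' = col y' ∧
      comp x' y' = comp x y := by
  intro xs
  induction xs with
  | nil =>
    intro ys x y _ _ he hd
    refine ⟨x, y, rfl, hd x (by simp) y (by simp), ?_, rfl⟩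
    simp only [List.map_cons, List.cons.injEq] at he
    exact he.1
  | cons x₂ xs ih =>
    intro ys x y hx hy he hd
    cases ys with
    | nil => simp at he
    | cons y₂ ys =>
      simp only [List.map_cons, List.cons.injEq] at he
      obtain ⟨he1, he2, he3⟩ := he
      rw [List.isChain_cons_cons] at hx hy
      obtain ⟨x', y', h1, h2, h3, h4⟩ := ih ys x₂ y₂ hx.2 hy.2
        (by simp only [List.map_cons, List.cons.injEq]; exact ⟨he2, he3⟩)
        (fun a ha b hb => hd a (List.mem_cons_of_mem _ ha) b (List.mem_cons_of_mem _ hb))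
      refine ⟨x', y', ?_, h2, h3, ?_⟩
      · rw [List.getLast?_cons_cons]
        exact h1
      · rw [h4]
        exact comp_step x y (hd x (by simp) y (by simp)) he1 x₂ hx.1 y₂ hy.1
          (hd x₂ (by simp) y₂ (by simp)) he2

theorem nonrep_product : Nonrepetitive (lex C7 K2) col := by
  intro l₁ l₂ h0 h1 h2 he
  rw [List.isChain_append] at h2
  obtain ⟨hc1, hc2, hc3⟩ := h2
  rw [List.nodup_append] at h1
  cases l₁ with
  | nil => exact h0 rfl
  | cons x xs =>
    cases l₂ with
    | nil => simp at he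
    | cons y ys =>
      obtain ⟨x', y', g1, g2, g3, g4⟩ := comp_last xs ys x y hc1 hc2 he
        (fun a ha b hb => h1.2.2 a ha b hb)
      have hxy : col x = col y := by
        simp only [List.map_cons, List.cons.injEq] at he
        exact he.1
      exact comp_end x y (h1.2.2 x (by simp) y (by simp)) hxy x' y' g2 g3 g4
        (hc3 x' g1 y rfl)

theorem product_le : thue (lex C7 K2) ≤ 7 := Nat.sInf_le ⟨col, nonrep_product⟩

/-! ### the lower bounds -/

/-- half of a repetition in the cycle -/
def half (i : Fin 7) (s t : ℕ) : List (Fin 7) := (List.range t).map fun j => i + Fin.ofNat 7 (s + j)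

def rep (c : Fin 7 → Fin 3) (i : Fin 7) (t : ℕ) : Bool :=
  (half i 0 t).map c == (half i t t).map c

def bad (c : Fin 7 → Fin 3) : Bool :=
  (List.finRange 7).any fun i => rep c i 1 || rep c i 2 || rep c i 3

theorem half_ok : ∀ i : Fin 7, ∀ t : Fin 3, half i 0 (t.val + 1) ≠ [] ∧
    (half i 0 (t.val + 1) ++ half i (t.val + 1) (t.val + 1)).Nodup ∧
    (half i 0 (t.val + 1) ++ half i (t.val + 1) (t.val + 1)).IsChain C7.Adj := by
  decide +kernel

def chk : Bool :=
  (List.finRange 3).all fun a => (List.finRange 3).all fun b => (List.finRange 3).all fun c =>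
  (List.finRange 3).all fun d => (List.finRange 3).all fun e => (List.finRange 3).all fun f =>
  (List.finRange 3).all fun g => bad ![a, b, c, d, e, f, g]

theorem chk_true : chk = true := by decide +kernel

theorem not_thue3 : ¬ ThueColorable C7 3 := by
  rintro ⟨c, hc⟩
  have hcc : c = ![c 0, c 1, c 2, c 3, c 4, c 5, c 6] := by
    funext i; fin_cases i <;> rfl
  have h := chk_true
  unfold chk at h
  have := List.all_eq_true.1 h (c 0) (List.mem_finRange _)
  have := List.all_eq_true.1 this (c 1) (List.mem_finRange _)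
  have := List.all_eq_true.1 this (c 2) (List.mem_finRange _)
  have := List.all_eq_true.1 this (c 3) (List.mem_finRange _)
  have := List.all_eq_true.1 this (c 4) (List.mem_finRange _)
  have := List.all_eq_true.1 this (c 5) (List.mem_finRange _)
  have := List.all_eq_true.1 this (c 6) (List.mem_finRange _)
  rw [← hcc] at this
  unfold bad at this
  obtain ⟨i, -, hi⟩ := List.any_eq_true.1 this
  rw [Bool.or_eq_true, Bool.or_eq_true] at hi
  have key : ∀ t : Fin 3, rep c i (t.val + 1) = true → False := by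
    intro t ht
    obtain ⟨h1, h2, h3⟩ := half_ok i t
    unfold rep at ht
    rw [beq_iff_eq] at ht
    exact hc _ _ h1 h2 h3 ht
  rcases hi with (hi | hi) | hi
  · exact key 0 hi
  · exact key 1 hi
  · exact key 2 hi

theorem not_thue1 : ¬ ThueColorable K2 1 := by
  rintro ⟨c, hc⟩
  refine hc [0] [1] (by simp) (by decide) ?_ ?_
  · show ([0, 1] : List (Fin 2)).IsChain K2.Adj
    rw [List.isChain_cons_cons]
    exact ⟨by decide, List.isChain_singleton _⟩
  · simp only [List.map_cons, List.map_nil, List.cons.injEq, and_true]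
    exact Subsingleton.elim _ _

theorem C7_connected : C7.Connected := by
  have h : ∀ v : Fin 7, C7.Reachable 0 v := by
    have a : ∀ i : Fin 7, C7.Adj i (i + 1) := by decide
    have a1 : C7.Reachable 0 1 := (a 0).reachable
    have a2 : C7.Reachable 0 2 := a1.trans (a 1).reachable
    have a3 : C7.Reachable 0 3 := a2.trans (a 2).reachable
    have a4 : C7.Reachable 0 4 := a3.trans (a 3).reachable
    have a5 : C7.Reachable 0 5 := a4.trans (a 4).reachable
    have a6 : C7.Reachable 0 6 := a5.trans (a 5).reachable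
    intro v
    fin_cases v
    · exact SimpleGraph.Reachable.refl _
    · exact a1
    · exact a2
    · exact a3
    · exact a4
    · exact a5
    · exact a6
  rw [SimpleGraph.connected_iff]
  exact ⟨fun u v => (h u).symm.trans (h v), ⟨0⟩⟩

/-- There are connected finite graphs `G` (the cycle on 7 vertices) and `H` (the complete graph on
2 vertices) with `π(G[H]) < π(H) + (π(G) - 1) |V(H)|`: the left-hand side is at most 7, while
`π(H) ≥ 2` and `π(G) ≥ 4`. -/
theorem result : ∃ (G : SimpleGraph (Fin 7)) (H : SimpleGraph (Fin 2)), G.Connected ∧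
    H.Connected ∧ thue (lex G H) ≤ 7 ∧ 4 ≤ thue G ∧ 2 ≤ thue H ∧
    thue (lex G H) < thue H + (thue G - 1) * Fintype.card (Fin 2) := by
  have h1 := product_le
  have h2 := thue_ge C7 3 not_thue3
  have h3 := thue_ge K2 1 not_thue1
  refine ⟨C7, K2, C7_connected, SimpleGraph.connected_top, h1, h2, h3, ?_⟩
  rw [Fintype.card_fin]
  omega

end Pool.Agent.Results.MP_35dbbb_co.HeptagonProduct
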